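import Mathlib

namespace Pool.Agent.Results.MP_8bd6c4_co.FirstBound

open SimpleGraph Filter

/-- the edges of `G` split into `k` subgraphs, each a tree -/
def TreeDec {V : Type} (G : SimpleGraph V) (k : ℕ) : Prop :=
  ∃ T : Fin k → G.Subgraph, (∀ i, (T i).coe.IsTree) ∧ ∀ e ∈ G.edgeSet, ∃! i, e ∈ (T i).edgeSet

noncomputable def tau {V : Type} (G : SimpleGraph V) : ℕ := sInf {k | TreeDec G k}

/-- the vertices of `G` split into `k` sets, each inducing a tree -/
def TreePart {V : Type} (G : SimpleGraph V) (k : ℕ) : Prop :=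
  ∃ P : Fin k → Set V, (∀ i, (G.induce (P i)).IsTree) ∧ ∀ v, ∃! i, v ∈ P i

noncomputable def tau' {V : Type} (G : SimpleGraph V) : ℕ := sInf {k | TreePart G k}

/-- largest first ratio over connected graphs on `n` vertices with an edge -/
noncomputable def maxRatio (n : ℕ) : ℝ :=
  sSup {x : ℝ | ∃ G : SimpleGraph (Fin n), G.Connected ∧ G.edgeSet.Nonempty ∧
    x = (tau G : ℝ) / ((tau' G : ℝ) * (n : ℝ))}

theorem isTree_of_rank {W : Type} (H : SimpleGraph W) (r : W → ℕ) (root : W)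
    (h1 : ∀ v, v ≠ root → ∃ u, H.Adj v u ∧ r u < r v)
    (h2 : ∀ v a b, H.Adj v a → H.Adj v b → r a ≤ r v → r b ≤ r v → a = b) : H.IsTree := by
  classical
  have hreach : ∀ n v, r v = n → H.Reachable v root := by
    intro n
    induction n using Nat.strong_induction_on with
    | _ n ih =>
      intro v hv
      by_cases hvr : v = root
      · subst hvr; exact Reachable.refl _
      · obtain ⟨u, hu, hlt⟩ := h1 v hvr
        exact hu.reachable.trans (ih (r u) (hv ▸ hlt) u rfl)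
  refine ⟨?_, ?_⟩
  · haveI : Nonempty W := ⟨root⟩
    exact ⟨fun a b => (hreach _ a rfl).trans (hreach _ b rfl).symm⟩
  · intro v c hc
    obtain ⟨x, hx, hmax⟩ := Finset.exists_max_image c.support.toFinset r
      ⟨v, List.mem_toFinset.2 c.start_mem_support⟩
    have hx' : x ∈ c.support := List.mem_toFinset.1 hx
    have hc' := hc.rotate hx'
    have hn := hc'.not_nil
    have ha := Walk.adj_snd hn
    have hb := (Walk.adj_penultimate hn).symm
    have m1 : (c.rotate x hx').snd ∈ c.support :=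
      (Walk.mem_support_rotate_iff c x hx').1 (Walk.getVert_mem_support _ _)
    have m2 : (c.rotate x hx').penultimate ∈ c.support :=
      (Walk.mem_support_rotate_iff c x hx').1 (Walk.getVert_mem_support _ _)
    exact hc'.snd_ne_penultimate (h2 x _ _ ha hb (hmax _ (List.mem_toFinset.2 m1))
      (hmax _ (List.mem_toFinset.2 m2)))

theorem star_tree {V : Type} (G : SimpleGraph V) (A : Set V) (q : V) (hq : q ∈ A)
    (h1 : ∀ v ∈ A, v ≠ q → G.Adj v q)
    (h2 : ∀ v ∈ A, ∀ w ∈ A, v ≠ q → w ≠ q → ¬ G.Adj v w) : (G.induce A).IsTree := by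
  classical
  refine isTree_of_rank _ (fun x => if x.1 = q then 0 else 1) ⟨q, hq⟩ ?_ ?_
  · intro v hv
    have hv' : v.1 ≠ q := fun h => hv (Subtype.ext h)
    exact ⟨⟨q, hq⟩, h1 v.1 v.2 hv', by simp [hv']⟩
  · intro v a b ha hb hra hrb
    have ha' : G.Adj v.1 a.1 := ha
    have hb' : G.Adj v.1 b.1 := hb
    have key : ∀ c : A, G.Adj v.1 c.1 →
        (if c.1 = q then 0 else 1) ≤ (if v.1 = q then 0 else 1) → c.1 = q := by
      intro c hc hr
      by_contra hcq
      by_cases hvq : v.1 = q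
      · simp [hvq, hcq] at hr
      · exact h2 v.1 v.2 c.1 c.2 hvq hcq hc
    exact Subtype.ext ((key a ha' hra).trans (key b hb' hrb).symm)

theorem dec_of {V ι : Type} [Fintype ι] (G : SimpleGraph V) (K : ι → Set V)
    (C : ι → SimpleGraph V) (hC : ∀ c, C c ≤ G) (hT : ∀ c, ((C c).induce (K c)).IsTree)
    (L : ι → V → V → Prop) (hL : ∀ c x y, L c x y → x ∉ K c ∧ y ∈ K c)
    (hu : ∀ c x y y', L c x y → L c x y' → y = y')
    (hcu : ∀ c c' x y, x ∈ K c → y ∈ K c → (C c).Adj x y → x ∈ K c' → y ∈ K c' →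
      (C c').Adj x y → c = c')
    (hcov : ∀ x y, G.Adj x y → (∃ c, x ∈ K c ∧ y ∈ K c ∧ (C c).Adj x y) ∨
      ∃ c, L c x y ∨ L c y x) : TreeDec G (Fintype.card ι) := by
  classical
  have hex : ∀ e : G.edgeSet, ∃ c, ∀ x y, e.1 = s(x, y) →
      (∀ c', x ∈ K c' → y ∈ K c' → (C c').Adj x y → c' = c) ∧
      ((x ∈ K c ∧ y ∈ K c ∧ (C c).Adj x y) ∨ L c x y ∨ L c y x) := by
    rintro ⟨e, he⟩
    induction e using Sym2.ind with
    | _ a b =>
      by_cases h : ∃ c, a ∈ K c ∧ b ∈ K c ∧ (C c).Adj a b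
      · obtain ⟨c, h1, h2, h3⟩ := h
        refine ⟨c, fun x y hxy => ?_⟩
        rcases Sym2.eq_iff.1 hxy with ⟨rfl, rfl⟩ | ⟨rfl, rfl⟩
        · exact ⟨fun c' p q r => hcu _ _ _ _ p q r h1 h2 h3, Or.inl ⟨h1, h2, h3⟩⟩
        · exact ⟨fun c' p q r => hcu _ _ _ _ p q r h2 h1 h3.symm, Or.inl ⟨h2, h1, h3.symm⟩⟩
      · obtain ⟨c, hc⟩ := (hcov a b he).resolve_left h
        refine ⟨c, fun x y hxy => ?_⟩
        rcases Sym2.eq_iff.1 hxy with ⟨rfl, rfl⟩ | ⟨rfl, rfl⟩
        · exact ⟨fun c' p q r => absurd ⟨c', p, q, r⟩ h, Or.inr hc⟩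
        · exact ⟨fun c' p q r => absurd ⟨c', q, p, r.symm⟩ h, Or.inr hc.symm⟩
  choose χ hχ using hex
  let A : ι → V → V → Prop := fun c x y => ∃ h : G.Adj x y, χ ⟨s(x, y), h⟩ = c
  have hAs : ∀ c x y, A c x y → A c y x := by
    rintro c x y ⟨h, e⟩
    exact ⟨h.symm, by rw [← e]; congr 1; exact Subtype.ext Sym2.eq_swap⟩
  have hA1 : ∀ c x y, A c x y → (x ∈ K c ∧ y ∈ K c ∧ (C c).Adj x y) ∨ L c x y ∨ L c y x := by
    rintro c x y ⟨h, rfl⟩
    exact (hχ ⟨s(x, y), h⟩ x y rfl).2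
  have hA2 : ∀ c x y, x ∈ K c → y ∈ K c → (C c).Adj x y → A c x y :=
    fun c x y p q r => ⟨hC c r, ((hχ ⟨s(x, y), hC c r⟩ x y rfl).1 c p q r).symm⟩
  have hA3 : ∀ c x y, A c x y → x ∉ K c → L c x y := by
    intro c x y h hx
    rcases hA1 c x y h with h | h | h
    · exact absurd h.1 hx
    · exact h
    · exact absurd (hL _ _ _ h).2 hx
  let T : ι → G.Subgraph := fun c =>
    { verts := {x | x ∈ K c ∨ ∃ y, A c x y}
      Adj := A c
      adj_sub := fun h => h.1
      edge_vert := fun {x y} h => Or.inr ⟨y, h⟩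
      symm := ⟨fun x y h => hAs c x y h⟩ }
  have hTree : ∀ c, (T c).coe.IsTree := by
    intro c
    let f : (C c).induce (K c) →g (T c).coe :=
      ⟨fun x => ⟨x.1, Or.inl x.2⟩, fun {x y} h => hA2 c x.1 y.1 x.2 y.2 h⟩
    have near : ∀ v : (T c).verts, ∃ u : K c, (T c).coe.Reachable v (f u) := by
      intro v
      by_cases hv : v.1 ∈ K c
      · exact ⟨⟨v.1, hv⟩, Reachable.refl _⟩
      · obtain ⟨y, hy⟩ := v.2.resolve_left hv
        exact ⟨⟨y, (hL _ _ _ (hA3 c _ _ hy hv)).2⟩, Adj.reachable hy⟩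
    refine ⟨?_, ?_⟩
    · obtain ⟨u0⟩ := (hT c).connected.nonempty
      haveI : Nonempty (T c).verts := ⟨f u0⟩
      refine ⟨fun a b => ?_⟩
      obtain ⟨u, hu⟩ := near a
      obtain ⟨w, hw⟩ := near b
      exact hu.trans ((((hT c).connected.preconnected u w).map f).trans hw.symm)
    · intro v w hw
      by_cases hall : ∀ x ∈ w.support, x ∈ {z : (T c).verts | z.1 ∈ K c}
      · have h1 : (w.induce _ hall).IsCycle := by
          apply Walk.IsCycle.of_map (f := (Embedding.induce _).toHom)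
          rw [Walk.map_induce]
          exact hw
        let g : (T c).coe.induce {z : (T c).verts | z.1 ∈ K c} →g (C c).induce (K c) :=
          ⟨fun x => ⟨x.1.1, x.2⟩, fun {x y} h => by
            rcases hA1 c x.1.1 y.1.1 h with h | h | h
            · exact h.2.2
            · exact absurd x.2 (hL _ _ _ h).1
            · exact absurd y.2 (hL _ _ _ h).1⟩
        have hg : Function.Injective g := fun x y h =>
          Subtype.ext (Subtype.ext (congrArg (fun z : K c => z.1) h))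
        exact (hT c).isAcyclic _ (h1.map hg)
      · push Not at hall
        obtain ⟨x, hx, hxK⟩ := hall
        have hc' := hw.rotate hx
        have hn := hc'.not_nil
        have ha := Walk.adj_snd hn
        have hb := (Walk.adj_penultimate hn).symm
        exact hc'.snd_ne_penultimate
          (Subtype.ext (hu c x.1 _ _ (hA3 c _ _ ha hxK) (hA3 c _ _ hb hxK)))
  refine ⟨fun i => T ((Fintype.equivFin ι).symm i), fun i => hTree _, ?_⟩
  intro e he
  induction e using Sym2.ind with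
  | _ a b =>
    refine ⟨Fintype.equivFin ι (χ ⟨s(a, b), he⟩), ⟨he, by simp⟩, ?_⟩
    rintro i ⟨h, e⟩
    rw [e]
    simp

/-- the edges between different parts -/
def cross {n k : ℕ} (G : SimpleGraph (Fin n)) (p : Fin n → Fin k) : SimpleGraph (Fin n) where
  Adj a b := G.Adj a b ∧ p a ≠ p b
  symm := ⟨fun a b h => ⟨h.1.symm, h.2.symm⟩⟩
  loopless := ⟨fun a h => h.2 rfl⟩

theorem generic {n k : ℕ} (G : SimpleGraph (Fin n)) (p : Fin n → Fin k)
    (hp : ∀ i, (G.induce {v | p v = i}).IsTree) (𝓕 : Finset (Finset (Fin n)))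
    (hd : ∀ N ∈ 𝓕, ∀ O ∈ 𝓕, ∀ x, x ∈ N → x ∈ O → N = O)
    (hc : ∀ N ∈ 𝓕, ((cross G p).induce (N : Set (Fin n))).IsTree)
    (t : Finset (Fin n) → Fin n → Bool)
    (ht : ∀ N ∈ 𝓕, ∀ x y y', y ∈ N → y' ∈ N → (cross G p).Adj x y → (cross G p).Adj x y' →
      t N y = t N y' → y = y')
    (D : Fin n → Finset (Fin n) → Prop)
    (hD : ∀ x N, D x N ↔ (∀ O ∈ 𝓕, x ∉ O) ∧ ∃ y ∈ N, ∃ y' ∈ N, y ≠ y' ∧
      (cross G p).Adj x y ∧ (cross G p).Adj x y')
    (h3 : ∀ N ∈ 𝓕, ∀ x x' x'', x < x' → x' < x'' → D x N → D x' N → D x'' N → False)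
    (hR : ∀ x y y', (∀ O ∈ 𝓕, x ∉ O) → (∀ O ∈ 𝓕, y ∉ O) → (∀ O ∈ 𝓕, y' ∉ O) →
      (cross G p).Adj x y → (cross G p).Adj x y' → y = y') : TreeDec G (k + 𝓕.card) := by
  classical
  let s : Fin n → Finset (Fin n) → Bool := fun x N => decide (∃ x', x' < x ∧ D x' N)
  have hs : ∀ N ∈ 𝓕, ∀ x x', D x N → D x' N → s x N = s x' N → x = x' := by
    have aux : ∀ N ∈ 𝓕, ∀ x x', D x N → D x' N → s x N = s x' N → ¬ x < x' := by
      intro N hN x x' h h' e hlt
      have e1 : s x' N = true := decide_eq_true ⟨x, hlt, h⟩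
      obtain ⟨z, hz, hDz⟩ := of_decide_eq_true (e.trans e1)
      exact h3 N hN z x x' hz hlt hDz h h'
    intro N hN x x' h h' e
    exact le_antisymm (not_lt.1 (aux N hN x' x h' h e.symm)) (not_lt.1 (aux N hN x x' h h' e))
  let idx : Finset (Fin n) → ℕ := fun N => (Fintype.equivFin _ N).1
  have hidx : ∀ N O, idx N = idx O → N = O := fun N O h =>
    (Fintype.equivFin _).injective (Fin.ext h)
  have key := dec_of (ι := Fin k ⊕ 𝓕) G
    (Sum.elim (fun i => {v | p v = i}) (fun N => (N.1 : Set (Fin n))))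
    (Sum.elim (fun _ => G) (fun _ => cross G p)) ?_ ?_
    (Sum.elim
      (fun i x y => (cross G p).Adj x y ∧ p y = i ∧ (∀ O ∈ 𝓕, y ∉ O) ∧
        ((∀ O ∈ 𝓕, x ∉ O) ∨ ∃ N ∈ 𝓕, x ∈ N ∧ D y N ∧ t N x = s y N))
      (fun N x y => (cross G p).Adj x y ∧ y ∈ N.1 ∧
        (((∀ O ∈ 𝓕, x ∉ O) ∧ ¬ (D x N.1 ∧ t N.1 y = s x N.1)) ∨
        ∃ O ∈ 𝓕, x ∈ O ∧ ((idx O < idx N.1 ∧ t O x = t N.1 y) ∨
          (idx N.1 < idx O ∧ t O x ≠ t N.1 y))))) ?_ ?_ ?_ ?_
  · simpa using key
  · rintro (i | N)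
    · exact le_refl _
    · exact fun a b h => h.1
  · rintro (i | N)
    · exact hp i
    · exact hc N.1 N.2
  · rintro (i | N) x y h
    · exact ⟨fun e => h.1.2 (Eq.trans e h.2.1.symm), h.2.1⟩
    · refine ⟨fun e => ?_, h.2.1⟩
      rcases h.2.2 with h' | ⟨O, hO, hx, h'⟩
      · exact h'.1 N.1 N.2 e
      · have := hd O hO N.1 N.2 x hx e
        subst this
        omega
  · rintro (i | N) x y y' h h'
    · rcases h.2.2.2 with a | ⟨N, hN, hx, a1, a2⟩ <;>
        rcases h'.2.2.2 with b | ⟨O, hO, hx', b1, b2⟩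
      · exact hR x y y' a h.2.2.1 h'.2.2.1 h.1 h'.1
      · exact absurd hx' (a O hO)
      · exact absurd hx (b N hN)
      · have := hd N hN O hO x hx hx'
        subst this
        exact hs N hN y y' a1 b1 (a2.symm.trans b2)
    · refine ht N.1 N.2 x y y' h.2.1 h'.2.1 h.1 h'.1 ?_
      rcases h.2.2 with a | ⟨O, hO, hx, a⟩ <;> rcases h'.2.2 with b | ⟨O', hO', hx', b⟩
      · by_cases e : y = y'
        · rw [e]
        · have hDx : D x N.1 := (hD _ _).2 ⟨a.1, y, h.2.1, y', h'.2.1, e, h.1, h'.1⟩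
          have a' : t N.1 y ≠ s x N.1 := fun q => a.2 ⟨hDx, q⟩
          have b' : t N.1 y' ≠ s x N.1 := fun q => b.2 ⟨hDx, q⟩
          revert a' b'
          cases t N.1 y <;> cases t N.1 y' <;> cases s x N.1 <;> simp
      · exact absurd hx' (a.1 O' hO')
      · exact absurd hx (b.1 O hO)
      · have := hd O hO O' hO' x hx hx'
        subst this
        rcases a with a | a <;> rcases b with b | b
        · exact a.2.symm.trans b.2
        · omega
        · omega
        · have a' := a.2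
          have b' := b.2
          revert a' b'
          cases t N.1 y <;> cases t N.1 y' <;> cases t O x <;> simp
  · rintro (i | N) (j | O) x y a1 a2 a3 b1 b2 b3
    · exact congrArg Sum.inl (Eq.trans (Eq.symm a1) b1)
    · exact absurd (Eq.trans a1 (Eq.symm a2)) b3.2
    · exact absurd (Eq.trans b1 (Eq.symm b2)) a3.2
    · exact congrArg Sum.inr (Subtype.ext (hd N.1 N.2 O.1 O.2 x a1 b1))
  · intro x y hxy
    by_cases e : p x = p y
    · exact Or.inl ⟨Sum.inl (p y), e, rfl, hxy⟩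
    have hH : (cross G p).Adj x y := ⟨hxy, e⟩
    have one : ∀ x y, (cross G p).Adj x y → (∀ O ∈ 𝓕, x ∉ O) → ∀ N, ∀ hN : N ∈ 𝓕, y ∈ N →
        ((cross G p).Adj y x ∧ p x = p x ∧ (∀ O ∈ 𝓕, x ∉ O) ∧
          ((∀ O ∈ 𝓕, y ∉ O) ∨ ∃ N ∈ 𝓕, y ∈ N ∧ D x N ∧ t N y = s x N)) ∨
        ((cross G p).Adj x y ∧ y ∈ N ∧ (((∀ O ∈ 𝓕, x ∉ O) ∧ ¬ (D x N ∧ t N y = s x N)) ∨
          ∃ O ∈ 𝓕, x ∈ O ∧ ((idx O < idx N ∧ t O x = t N y) ∨
            (idx N < idx O ∧ t O x ≠ t N y)))) := by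
      intro x y h hx N hN hy
      by_cases q : D x N ∧ t N y = s x N
      · exact Or.inl ⟨h.symm, rfl, hx, Or.inr ⟨N, hN, hy, q.1, q.2⟩⟩
      · exact Or.inr ⟨h, hy, Or.inl ⟨hx, q⟩⟩
    by_cases hx : ∀ O ∈ 𝓕, x ∉ O <;> by_cases hy : ∀ O ∈ 𝓕, y ∉ O
    · exact Or.inr ⟨Sum.inl (p y), Or.inl ⟨hH, rfl, hy, Or.inl hx⟩⟩
    · push Not at hy
      obtain ⟨N, hN, hy⟩ := hy
      rcases one x y hH hx N hN hy with q | q
      · exact Or.inr ⟨Sum.inl (p x), Or.inr q⟩
      · exact Or.inr ⟨Sum.inr ⟨N, hN⟩, Or.inl q⟩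
    · push Not at hx
      obtain ⟨N, hN, hx⟩ := hx
      rcases one y x hH.symm hy N hN hx with q | q
      · exact Or.inr ⟨Sum.inl (p y), Or.inl q⟩
      · exact Or.inr ⟨Sum.inr ⟨N, hN⟩, Or.inr q⟩
    · push Not at hx hy
      obtain ⟨O, hO, hx⟩ := hx
      obtain ⟨N, hN, hy⟩ := hy
      rcases lt_trichotomy (idx O) (idx N) with l | l | l
      · by_cases q : t O x = t N y
        · exact Or.inr ⟨Sum.inr ⟨N, hN⟩, Or.inl ⟨hH, hy, Or.inr ⟨O, hO, hx, Or.inl ⟨l, q⟩⟩⟩⟩
        · exact Or.inr ⟨Sum.inr ⟨O, hO⟩, Or.inr ⟨hH.symm, hx,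
            Or.inr ⟨N, hN, hy, Or.inr ⟨l, fun r => q r.symm⟩⟩⟩⟩
      · have := hidx _ _ l
        subst this
        exact Or.inl ⟨Sum.inr ⟨O, hO⟩, hx, hy, hH⟩
      · by_cases q : t O x = t N y
        · exact Or.inr ⟨Sum.inr ⟨O, hO⟩, Or.inr ⟨hH.symm, hx,
            Or.inr ⟨N, hN, hy, Or.inl ⟨l, q.symm⟩⟩⟩⟩
        · exact Or.inr ⟨Sum.inr ⟨N, hN⟩, Or.inl ⟨hH, hy, Or.inr ⟨O, hO, hx, Or.inr ⟨l, q⟩⟩⟩⟩

theorem maxfam {n : ℕ} (Q : Finset (Fin n) → Prop) (sz : ℕ) (hsz : 0 < sz)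
    (hQ : ∀ N, Q N → N.card = sz) :
    ∃ 𝓕 : Finset (Finset (Fin n)), (∀ N ∈ 𝓕, Q N) ∧
      (∀ N ∈ 𝓕, ∀ O ∈ 𝓕, ∀ x, x ∈ N → x ∈ O → N = O) ∧ 𝓕.card * sz ≤ n ∧
      (∀ M, Q M → (∀ x ∈ M, ∀ O ∈ 𝓕, x ∉ O) → False) ∧
      (∀ N ∈ 𝓕, ∀ M M', Q M → Q M' → (∀ x, x ∈ M → x ∈ M' → False) →
        (∀ x, x ∈ M ∨ x ∈ M' → x ∈ N ∨ ∀ O ∈ 𝓕, x ∉ O) → False) := by
  classical
  obtain ⟨𝓕, h𝓕, hmax⟩ := Finset.exists_max_image
    (Finset.univ.filter fun 𝓕 : Finset (Finset (Fin n)) => (∀ N ∈ 𝓕, Q N) ∧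
      (∀ N ∈ 𝓕, ∀ O ∈ 𝓕, ∀ x, x ∈ N → x ∈ O → N = O)) Finset.card ⟨∅, by simp⟩
  obtain ⟨_, h1, h2⟩ := Finset.mem_filter.1 h𝓕
  have hne : ∀ M, Q M → ∃ x, x ∈ M := fun M h => Finset.card_pos.1 (by rw [hQ M h]; exact hsz)
  refine ⟨𝓕, h1, h2, ?_, ?_, ?_⟩
  · have e := Finset.card_biUnion (s := 𝓕) (t := fun N => N) (fun N hN O hO hne =>
      Finset.disjoint_left.2 fun x a b => hne (h2 N hN O hO x a b))
    rw [Finset.sum_const_nat (m := sz) (fun N hN => hQ N (h1 N hN))] at e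
    rw [← e]
    simpa using Finset.card_le_univ (𝓕.biUnion fun N => N)
  · intro M hM hout
    obtain ⟨z, hz⟩ := hne M hM
    have hM' : M ∉ 𝓕 := fun h => hout z hz M h hz
    have := hmax (insert M 𝓕) (Finset.mem_filter.2 ⟨Finset.mem_univ _, ?_, ?_⟩)
    · rw [Finset.card_insert_of_notMem hM'] at this
      omega
    · intro A hA
      rcases Finset.mem_insert.1 hA with e | e
      · exact e ▸ hM
      · exact h1 A e
    · intro A hA B hB x a b
      rcases Finset.mem_insert.1 hA with e | e <;> rcases Finset.mem_insert.1 hB with e' | e'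
      · rw [e, e']
      · exact absurd b (hout x (e ▸ a) B e')
      · exact absurd a (hout x (e' ▸ b) A e)
      · exact h2 A e B e' x a b
  · intro N hN M M' hM hM' hdis hsub
    have far : ∀ O ∈ 𝓕.erase N, ∀ x, x ∈ O → x ∈ M ∨ x ∈ M' → False := by
      intro O hO x hx h
      obtain ⟨o1, o2⟩ := Finset.mem_erase.1 hO
      rcases hsub x h with q | q
      · exact o1 (h2 O o2 N hN x hx q)
      · exact q O o2 hx
    obtain ⟨z, hz⟩ := hne M hM
    obtain ⟨z', hz'⟩ := hne M' hM'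
    have n1 : M' ∉ 𝓕.erase N := fun h => far M' h z' hz' (Or.inr hz')
    have n2 : M ∉ insert M' (𝓕.erase N) := by
      intro h
      rcases Finset.mem_insert.1 h with e | e
      · exact hdis z hz (e ▸ hz)
      · exact far M e z hz (Or.inl hz)
    have := hmax (insert M (insert M' (𝓕.erase N)))
      (Finset.mem_filter.2 ⟨Finset.mem_univ _, ?_, ?_⟩)
    · rw [Finset.card_insert_of_notMem n2, Finset.card_insert_of_notMem n1,
        Finset.card_erase_of_mem hN] at this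
      have := Finset.card_pos.2 ⟨N, hN⟩
      omega
    · intro A hA
      rcases Finset.mem_insert.1 hA with e | e
      · exact e ▸ hM
      · rcases Finset.mem_insert.1 e with e | e
        · exact e ▸ hM'
        · exact h1 A (Finset.mem_of_mem_erase e)
    · intro A hA B hB x a b
      simp only [Finset.mem_insert] at hA hB
      rcases hA with e | e | e <;> rcases hB with e' | e' | e'
      · rw [e, e']
      · exact (hdis x (e ▸ a) (e' ▸ b)).elim
      · exact (far B e' x b (Or.inl (e ▸ a))).elim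
      · exact (hdis x (e' ▸ b) (e ▸ a)).elim
      · rw [e, e']
      · exact (far B e' x b (Or.inr (e ▸ a))).elim
      · exact (far A e x a (Or.inl (e' ▸ b))).elim
      · exact (far A e x a (Or.inr (e' ▸ b))).elim
      · exact h2 A (Finset.mem_of_mem_erase e) B (Finset.mem_of_mem_erase e') x a b

theorem by_pairs {n k : ℕ} (G : SimpleGraph (Fin n)) (p : Fin n → Fin k)
    (hp : ∀ i, (G.induce {v | p v = i}).IsTree) :
    ∃ m, m * 2 ≤ n ∧ (k ≤ 1 → m = 0) ∧ TreeDec G (k + m) := by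
  classical
  obtain ⟨𝓕, h1, h2, h3, h4, h5⟩ := maxfam (fun N : Finset (Fin n) =>
    ∃ u v, (cross G p).Adj u v ∧ N = {u, v}) 2 (by norm_num)
    (by rintro N ⟨u, v, h, rfl⟩; exact Finset.card_pair h.ne)
  have ht : ∀ N : Finset (Fin n), ∃ t : Fin n → Bool, N ∈ 𝓕 → ∀ y y', y ∈ N → y' ∈ N →
      t y = t y' → y = y' := by
    intro N
    by_cases hN : N ∈ 𝓕
    · obtain ⟨u, v, h, rfl⟩ := h1 N hN
      refine ⟨fun y => decide (y = u), fun _ y y' a b e => ?_⟩
      have := h.ne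
      simp only [Finset.mem_insert, Finset.mem_singleton, decide_eq_decide] at a b e
      grind
    · exact ⟨fun _ => true, fun h => absurd h hN⟩
  choose t ht using ht
  refine ⟨𝓕.card, h3, fun hk => ?_, generic G p hp 𝓕 h2 ?_ t
    (fun N hN x y y' a b _ _ e => ht N hN y y' a b e) _ (fun _ _ => Iff.rfl) ?_ ?_⟩
  · rw [Finset.card_eq_zero, Finset.eq_empty_iff_forall_notMem]
    intro N hN
    obtain ⟨u, v, h, _⟩ := h1 N hN
    exact h.2 (Fin.ext (by have := (p u).2; have := (p v).2; omega))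
  · intro N hN
    obtain ⟨u, v, h, rfl⟩ := h1 N hN
    refine star_tree _ _ u (by simp) ?_ ?_
    · intro x hx hxu
      have : x = v := by simpa [hxu] using hx
      rw [this]; exact h.symm
    · intro x hx y hy hxu hyu
      have a : x = v := by simpa [hxu] using hx
      have b : y = v := by simpa [hyu] using hy
      rw [a, b]; exact (cross G p).irrefl
  · intro N hN x x' _ l _ d d' _
    obtain ⟨u, v, h, rfl⟩ := h1 N hN
    have both : ∀ z, (∃ y ∈ ({u, v} : Finset (Fin n)), ∃ y' ∈ ({u, v} : Finset (Fin n)), y ≠ y' ∧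
        (cross G p).Adj z y ∧ (cross G p).Adj z y') →
        (cross G p).Adj z u ∧ (cross G p).Adj z v := by
      rintro z ⟨y, a, y', b, c, e, f⟩
      simp only [Finset.mem_insert, Finset.mem_singleton] at a b
      grind
    have o1 := d.1 _ hN
    have o2 := d'.1 _ hN
    have q1 := d.1
    have q2 := d'.1
    have := h.ne
    have := l.ne
    refine h5 _ hN {x, u} {x', v} ⟨x, u, (both x d.2).1, rfl⟩ ⟨x', v, (both x' d'.2).2, rfl⟩ ?_ ?_
    · intro z a b
      simp only [Finset.mem_insert, Finset.mem_singleton] at a b o1 o2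
      grind
    · intro z a
      simp only [Finset.mem_insert, Finset.mem_singleton] at a ⊢
      grind
  · intro x y y' a b _ e _
    refine (h4 {x, y} ⟨x, y, e, rfl⟩ ?_).elim
    intro z hz
    simp only [Finset.mem_insert, Finset.mem_singleton] at hz
    grind

theorem by_triples {n : ℕ} (G : SimpleGraph (Fin n)) (p : Fin n → Fin 2)
    (hp : ∀ i, (G.induce {v | p v = i}).IsTree) : ∃ m, m * 3 ≤ n ∧ TreeDec G (2 + m) := by
  classical
  have tri : ∀ x y z, (cross G p).Adj x y → (cross G p).Adj x z → (cross G p).Adj y z → False := by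
    intro x y z a b c
    have : ∀ a b c : Fin 2, a ≠ b → a ≠ c → b ≠ c → False := by decide
    exact this _ _ _ a.2 b.2 c.2
  obtain ⟨𝓕, h1, h2, h3, h4, h5⟩ := maxfam (fun N : Finset (Fin n) =>
    ∃ c a b, (cross G p).Adj c a ∧ (cross G p).Adj c b ∧ a ≠ b ∧ N = {c, a, b}) 3 (by norm_num)
    (by
      rintro N ⟨c, a, b, h, h', e, rfl⟩
      exact Finset.card_eq_three.2 ⟨c, a, b, h.ne, h'.ne, e, rfl⟩)
  have ht : ∀ N : Finset (Fin n), ∃ t : Fin n → Bool, N ∈ 𝓕 → ∀ x y y', y ∈ N → y' ∈ N →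
      (cross G p).Adj x y → (cross G p).Adj x y' → t y = t y' → y = y' := by
    intro N
    by_cases hN : N ∈ 𝓕
    · obtain ⟨c, a, b, h, h', e, rfl⟩ := h1 N hN
      refine ⟨fun y => decide (y = a), fun _ x y y' q r u v w => ?_⟩
      have t1 := fun q1 q2 => tri x c b q1 q2 h'
      simp only [Finset.mem_insert, Finset.mem_singleton, decide_eq_decide] at q r w
      grind
    · exact ⟨fun _ => true, fun h => absurd h hN⟩
  choose t ht using ht
  refine ⟨𝓕.card, h3, generic G p hp 𝓕 h2 ?_ t ht _ (fun _ _ => Iff.rfl) ?_ ?_⟩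
  · intro N hN
    obtain ⟨c, a, b, h, h', e, rfl⟩ := h1 N hN
    refine star_tree _ _ c (by simp) ?_ ?_
    · intro x hx hxu
      have : x = a ∨ x = b := by simpa [hxu] using hx
      rcases this with rfl | rfl
      · exact h.symm
      · exact h'.symm
    · intro x hx y hy hxu hyu hxy
      have q : x = a ∨ x = b := by simpa [hxu] using hx
      have r : y = a ∨ y = b := by simpa [hyu] using hy
      refine tri c x y ?_ ?_ hxy
      · rcases q with rfl | rfl <;> assumption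
      · rcases r with rfl | rfl <;> assumption
  · intro N hN x x' x'' l l' d d' d''
    obtain ⟨c, a, b, h, h', e, rfl⟩ := h1 N hN
    have both : ∀ z, (∃ y ∈ ({c, a, b} : Finset (Fin n)), ∃ y' ∈ ({c, a, b} : Finset (Fin n)),
        y ≠ y' ∧ (cross G p).Adj z y ∧ (cross G p).Adj z y') →
        (cross G p).Adj z a ∧ (cross G p).Adj z b := by
      rintro z ⟨y, q, y', r, u, v, w⟩
      have t1 := fun q1 q2 => tri z c b q1 q2 h'
      have t2 := fun q1 q2 => tri z c a q1 q2 h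
      simp only [Finset.mem_insert, Finset.mem_singleton] at q r
      grind
    have o1 := d.1 _ hN
    have o2 := d'.1 _ hN
    have o3 := d''.1 _ hN
    have q1 := d.1
    have q2 := d'.1
    have q3 := d''.1
    have := h.ne
    have := h'.ne
    have n1 := l.ne
    have n2 := l'.ne
    have n3 := (l.trans l').ne
    simp only [Finset.mem_insert, Finset.mem_singleton] at o1 o2 o3
    refine h5 _ hN {a, x, x'} {b, x'', c}
      ⟨a, x, x', (both x d.2).1.symm, (both x' d'.2).1.symm, n1, rfl⟩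
      ⟨b, x'', c, (both x'' d''.2).2.symm, h'.symm, by grind, rfl⟩ ?_ ?_
    · intro z q r
      simp only [Finset.mem_insert, Finset.mem_singleton] at q r
      grind
    · intro z q
      simp only [Finset.mem_insert, Finset.mem_singleton] at q ⊢
      grind
  · intro x y y' a b c e e'
    by_contra hne
    refine h4 {x, y, y'} ⟨x, y, y', e, e', hne, rfl⟩ ?_
    intro z hz
    simp only [Finset.mem_insert, Finset.mem_singleton] at hz
    grind

theorem to_fun {n k : ℕ} (G : SimpleGraph (Fin n)) (h : TreePart G k) :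
    ∃ p : Fin n → Fin k, ∀ i, (G.induce {v | p v = i}).IsTree := by
  obtain ⟨P, h1, h2⟩ := h
  choose p hp hu using h2
  refine ⟨p, fun i => ?_⟩
  have : {v | p v = i} = P i := Set.ext fun v => ⟨fun e => e ▸ hp v, fun e => (hu v i e).symm⟩
  rw [this]
  exact h1 i

theorem upper_ratio {n : ℕ} (G : SimpleGraph (Fin n)) (hG : G.Connected) :
    (tau G : ℝ) / ((tau' G : ℝ) * (n : ℝ)) ≤ 1 / 6 + 1 / (n : ℝ) := by
  obtain ⟨x0⟩ := hG.nonempty
  have hn : (0 : ℝ) < n := by exact_mod_cast x0.pos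
  by_cases h0 : tau' G = 0
  · rw [h0]; simp only [Nat.cast_zero, zero_mul, div_zero]; positivity
  have hne : {k | TreePart G k}.Nonempty := by
    by_contra h
    rw [Set.not_nonempty_iff_eq_empty] at h
    exact h0 (by simp [tau', h])
  have hmem : TreePart G (tau' G) := Nat.sInf_mem hne
  have key : 6 * tau G ≤ tau' G * n + 6 * tau' G := by
    by_cases h2 : tau' G = 2
    · rw [h2] at hmem ⊢
      obtain ⟨p, hp⟩ := to_fun G hmem
      obtain ⟨m, a, b⟩ := by_triples G p hp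
      have : tau G ≤ 2 + m := Nat.sInf_le b
      omega
    · obtain ⟨p, hp⟩ := to_fun G hmem
      obtain ⟨m, a, b, c⟩ := by_pairs G p hp
      have : tau G ≤ tau' G + m := Nat.sInf_le c
      by_cases h1 : tau' G ≤ 1
      · have := b h1
        omega
      · have : 3 * n ≤ tau' G * n := Nat.mul_le_mul_right n (by omega)
        omega
  have key' : 6 * (tau G : ℝ) ≤ tau' G * n + 6 * tau' G := by exact_mod_cast key
  have hk : (0 : ℝ) < tau' G := by exact_mod_cast Nat.pos_of_ne_zero h0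
  rw [div_le_iff₀ (by positivity)]
  have e : (1 / 6 + 1 / (n : ℝ)) * ((tau' G : ℝ) * n) = (tau' G * n + 6 * tau' G) / 6 := by
    field_simp
  rw [e]
  linarith

theorem maxRatio_le (n : ℕ) : maxRatio n ≤ 1 / 6 + 1 / (n : ℝ) := by
  refine Real.sSup_le ?_ (by positivity)
  rintro x ⟨G, hG, hE, rfl⟩
  exact upper_ratio G hG

theorem maxRatio_nonneg (n : ℕ) : 0 ≤ maxRatio n := by
  refine Real.sSup_nonneg ?_
  rintro x ⟨G, hG, hE, rfl⟩
  positivity

theorem result (n : ℕ) (G : SimpleGraph (Fin n)) (h : G.Connected) :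
    (tau G : ℝ) / ((tau' G : ℝ) * (n : ℝ)) ≤ 1 / 6 + 1 / (n : ℝ) :=
  upper_ratio G h

end Pool.Agent.Results.MP_8bd6c4_co.FirstBound
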