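import Mathlib

namespace Pool.Agent.Results.MP_8bd6c4_co.SecondConstant

open SimpleGraph Filter

/-- the edges of `G` split into `k` subgraphs, each a tree -/
def TreeDec {V : Type} (G : SimpleGraph V) (k : ℕ) : Prop :=
  ∃ T : Fin k → G.Subgraph, (∀ i, (T i).coe.IsTree) ∧ ∀ e ∈ G.edgeSet, ∃! i, e ∈ (T i).edgeSet

noncomputable def tau {V : Type} (G : SimpleGraph V) : ℕ := sInf {k | TreeDec G k}

/-- the vertices of `G` split into `k` sets, each inducing a tree -/
def TreePart {V : Type} (G : SimpleGraph V) (k : ℕ) : Prop :=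
  ∃ P : Fin k → Set V, (∀ i, (G.induce (P i)).IsTree) ∧ ∀ v, ∃! i, v ∈ P i

noncomputable def tau' {V : Type} (G : SimpleGraph V) : ℕ := sInf {k | TreePart G k}

/-- largest ratio over connected graphs on `n` vertices with an edge -/
noncomputable def maxRatio (n : ℕ) : ℝ :=
  sSup {x : ℝ | ∃ G : SimpleGraph (Fin n), G.Connected ∧ G.edgeSet.Nonempty ∧
    x = (tau' G : ℝ) / ((tau G : ℝ) * (n : ℝ))}

theorem isTree_of_rank {W : Type} (H : SimpleGraph W) (r : W → ℕ) (root : W)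
    (h1 : ∀ v, v ≠ root → ∃ u, H.Adj v u ∧ r u < r v)
    (h2 : ∀ v a b, H.Adj v a → H.Adj v b → r a ≤ r v → r b ≤ r v → a = b) : H.IsTree := by
  classical
  have hreach : ∀ n v, r v = n → H.Reachable v root := by
    intro n
    induction n using Nat.strong_induction_on with
    | _ n ih =>
      intro v hv
      by_cases hvr : v = root
      · subst hvr; exact Reachable.refl _
      · obtain ⟨u, hu, hlt⟩ := h1 v hvr
        exact hu.reachable.trans (ih (r u) (hv ▸ hlt) u rfl)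
  refine ⟨?_, ?_⟩
  · haveI : Nonempty W := ⟨root⟩
    exact ⟨fun a b => (hreach _ a rfl).trans (hreach _ b rfl).symm⟩
  · intro v c hc
    obtain ⟨x, hx, hmax⟩ := Finset.exists_max_image c.support.toFinset r
      ⟨v, List.mem_toFinset.2 c.start_mem_support⟩
    have hx' : x ∈ c.support := List.mem_toFinset.1 hx
    have hc' := hc.rotate hx'
    have hn := hc'.not_nil
    have ha := Walk.adj_snd hn
    have hb := (Walk.adj_penultimate hn).symm
    have m1 : (c.rotate x hx').snd ∈ c.support :=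
      (Walk.mem_support_rotate_iff c x hx').1 (Walk.getVert_mem_support _ _)
    have m2 : (c.rotate x hx').penultimate ∈ c.support :=
      (Walk.mem_support_rotate_iff c x hx').1 (Walk.getVert_mem_support _ _)
    exact hc'.snd_ne_penultimate (h2 x _ _ ha hb (hmax _ (List.mem_toFinset.2 m1))
      (hmax _ (List.mem_toFinset.2 m2)))

theorem star_tree {V : Type} (G : SimpleGraph V) (A : Set V) (q : V) (hq : q ∈ A)
    (h1 : ∀ v ∈ A, v ≠ q → G.Adj v q)
    (h2 : ∀ v ∈ A, ∀ w ∈ A, v ≠ q → w ≠ q → ¬ G.Adj v w) : (G.induce A).IsTree := by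
  classical
  refine isTree_of_rank _ (fun x => if x.1 = q then 0 else 1) ⟨q, hq⟩ ?_ ?_
  · intro v hv
    have hv' : v.1 ≠ q := fun h => hv (Subtype.ext h)
    exact ⟨⟨q, hq⟩, h1 v.1 v.2 hv', by simp [hv']⟩
  · intro v a b ha hb hra hrb
    have ha' : G.Adj v.1 a.1 := ha
    have hb' : G.Adj v.1 b.1 := hb
    have key : ∀ c : A, G.Adj v.1 c.1 →
        (if c.1 = q then 0 else 1) ≤ (if v.1 = q then 0 else 1) → c.1 = q := by
      intro c hc hr
      by_contra hcq
      by_cases hvq : v.1 = q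
      · simp [hvq, hcq] at hr
      · exact h2 v.1 v.2 c.1 c.2 hvq hcq hc
    exact Subtype.ext ((key a ha' hra).trans (key b hb' hrb).symm)

theorem part_aux {V : Type} [DecidableEq V] (G : SimpleGraph V) (ρ : V) (p : V → V) (d : V → ℕ)
    (hp : ∀ v, v ≠ ρ → G.Adj v (p v) ∧ d v = d (p v) + 1) :
    ∀ (n : ℕ) (S : Finset V), S.card = n → (∀ v ∈ S, v ≠ ρ → p v ∈ S) →
      ∃ k, 2 * k ≤ S.card + 1 ∧ ∃ P : Fin k → Set V, (∀ i, (G.induce (P i)).IsTree) ∧
        (∀ i, P i ⊆ S) ∧ ∀ v ∈ S, ∃! i, v ∈ P i := by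
  classical
  intro n
  induction n using Nat.strong_induction_on with
  | _ n ih =>
    intro S hS hcl
    have step : ∀ A : Finset V, A ⊆ S → (G.induce (A : Set V)).IsTree →
        (2 ≤ A.card ∨ (A = S ∧ 1 ≤ A.card)) → (∀ v ∈ S \ A, v ≠ ρ → p v ∈ S \ A) →
        ∃ k, 2 * k ≤ S.card + 1 ∧ ∃ P : Fin k → Set V, (∀ i, (G.induce (P i)).IsTree) ∧
          (∀ i, P i ⊆ S) ∧ ∀ v ∈ S, ∃! i, v ∈ P i := by
      intro A hAS hT hcard hcl'
      have hc := Finset.card_sdiff_add_card_eq_card hAS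
      obtain ⟨k, hk, P, hP1, hP2, hP3⟩ := ih (S \ A).card (by omega) (S \ A) rfl hcl'
      refine ⟨k + 1, ?_, Fin.cons (A : Set V) P, ?_, ?_, ?_⟩
      · rcases hcard with h | ⟨h, h'⟩
        · omega
        · subst h
          simp at hk
          omega
      · intro i
        refine Fin.cases ?_ (fun j => ?_) i
        · exact hT
        · exact hP1 j
      · intro i
        refine Fin.cases ?_ (fun j => ?_) i
        · simpa using hAS
        · intro x hx
          have := hP2 j (by simpa using hx)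
          exact Finset.mem_coe.2 (Finset.mem_sdiff.1 (Finset.mem_coe.1 this)).1
      · intro v hv
        by_cases hvA : v ∈ A
        · refine ⟨0, by simpa using hvA, ?_⟩
          intro i
          refine Fin.cases (fun _ => rfl) (fun j hj => ?_) i
          have := hP2 j (by simpa using hj)
          exact absurd hvA (Finset.mem_sdiff.1 (Finset.mem_coe.1 this)).2
        · obtain ⟨j, hj, hu⟩ := hP3 v (Finset.mem_sdiff.2 ⟨hv, hvA⟩)
          refine ⟨j.succ, by simpa using hj, ?_⟩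
          intro i
          refine Fin.cases (fun h0 => ?_) (fun j' hj' => ?_) i
          · exact absurd (by simpa using h0) hvA
          · rw [hu j' (by simpa using hj')]
    by_cases hne : (S.filter (· ≠ ρ)).Nonempty
    · obtain ⟨v, hv, hmax⟩ := Finset.exists_max_image _ d hne
      obtain ⟨hvS, hvρ⟩ := Finset.mem_filter.1 hv
      have leaf : ∀ x ∈ S, x ≠ ρ → ∀ u, u ≠ ρ → p u = p v → p x ≠ u := by
        intro x hx hxρ u huρ hu h
        have e1 := (hp x hxρ).2
        have e2 := (hp u huρ).2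
        have e3 := (hp v hvρ).2
        have e4 := hmax x (Finset.mem_filter.2 ⟨hx, hxρ⟩)
        rw [h] at e1
        rw [hu] at e2
        omega
      by_cases hadj : ∃ u ∈ S, ∃ w ∈ S, u ≠ ρ ∧ w ≠ ρ ∧ p u = p v ∧ p w = p v ∧ G.Adj w u
      · obtain ⟨u, hu, w, hw, huρ, hwρ, hpu, hpw, huw⟩ := hadj
        refine step {u, w} ?_ ?_ (Or.inl ?_) ?_
        · intro x hx
          rcases Finset.mem_insert.1 hx with rfl | hx
          · exact hu
          · rw [Finset.mem_singleton.1 hx]; exact hw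
        · refine star_tree G _ u (by simp) ?_ ?_
          · intro x hx hxu
            have : x = w := by simpa [hxu] using hx
            rw [this]; exact huw
          · intro x hx y hy hxu hyu
            have h1 : x = w := by simpa [hxu] using hx
            have h2 : y = w := by simpa [hyu] using hy
            rw [h1, h2]; exact G.irrefl
        · rw [Finset.card_pair huw.ne.symm]
        · intro x hx hxρ
          have hxS := (Finset.mem_sdiff.1 hx).1
          refine Finset.mem_sdiff.2 ⟨hcl x hxS hxρ, ?_⟩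
          intro h
          rcases Finset.mem_insert.1 h with h | h
          · exact leaf x hxS hxρ u huρ hpu h
          · exact leaf x hxS hxρ w hwρ hpw (Finset.mem_singleton.1 h)
      · refine step (insert (p v) (S.filter fun w => w ≠ ρ ∧ p w = p v)) ?_ ?_ (Or.inl ?_) ?_
        · intro x hx
          rcases Finset.mem_insert.1 hx with rfl | hx
          · exact hcl v hvS hvρ
          · exact (Finset.mem_filter.1 hx).1
        · refine star_tree G _ (p v) (by simp) ?_ ?_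
          · intro x hx hxu
            have h : x ∈ S ∧ x ≠ ρ ∧ p x = p v := by simpa [hxu] using hx
            rw [← h.2.2]; exact (hp x h.2.1).1
          · intro x hx y hy hxu hyu hxy
            have h1 : x ∈ S ∧ x ≠ ρ ∧ p x = p v := by simpa [hxu] using hx
            have h2 : y ∈ S ∧ y ≠ ρ ∧ p y = p v := by simpa [hyu] using hy
            exact hadj ⟨y, h2.1, x, h1.1, h2.2.1, h1.2.1, h2.2.2, h1.2.2, hxy⟩
        · refine Finset.one_lt_card.2 ⟨v, ?_, p v, by simp, (hp v hvρ).1.ne⟩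
          exact Finset.mem_insert_of_mem (Finset.mem_filter.2 ⟨hvS, hvρ, rfl⟩)
        · intro x hx hxρ
          obtain ⟨hxS, hxA⟩ := Finset.mem_sdiff.1 hx
          refine Finset.mem_sdiff.2 ⟨hcl x hxS hxρ, ?_⟩
          intro h
          rcases Finset.mem_insert.1 h with h | h
          · exact hxA (Finset.mem_insert_of_mem (Finset.mem_filter.2 ⟨hxS, hxρ, h⟩))
          · obtain ⟨_, h1, h2⟩ := Finset.mem_filter.1 h
            exact leaf x hxS hxρ (p x) h1 h2 rfl
    · have hall : ∀ x ∈ S, x = ρ := by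
        intro x hx
        by_contra h
        exact hne ⟨x, Finset.mem_filter.2 ⟨hx, h⟩⟩
      by_cases hρ : ρ ∈ S
      · refine step S (Finset.Subset.refl _) ?_ (Or.inr ⟨rfl, Finset.card_pos.2 ⟨ρ, hρ⟩⟩) (by simp)
        refine star_tree G _ ρ hρ ?_ ?_
        · intro x hx h; exact absurd (hall x hx) h
        · intro x hx y hy h; exact absurd (hall x hx) h
      · refine ⟨0, by omega, Fin.elim0, fun i => i.elim0, fun i => i.elim0, ?_⟩
        intro x hx
        exact absurd (hall x hx ▸ hx) hρ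

theorem exists_part {n : ℕ} (G : SimpleGraph (Fin n)) (hG : G.Connected) :
    ∃ k, 2 * k ≤ n + 1 ∧ TreePart G k := by
  classical
  obtain ⟨ρ⟩ := hG.nonempty
  have hpar : ∀ v, ∃ u, v ≠ ρ → G.Adj v u ∧ G.dist v ρ = G.dist u ρ + 1 := by
    intro v
    by_cases hv : v = ρ
    · exact ⟨v, fun h => absurd hv h⟩
    · obtain ⟨w, hw⟩ := (hG.preconnected v ρ).exists_walk_length_eq_dist
      cases w with
      | nil => exact absurd rfl hv
      | cons h q =>
        rename_i u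
        refine ⟨u, fun _ => ⟨h, ?_⟩⟩
        have a1 := G.dist_le q
        obtain ⟨w', hw'⟩ := (hG.preconnected u ρ).exists_walk_length_eq_dist
        have a2 := G.dist_le (Walk.cons h w')
        simp only [Walk.length_cons] at hw a2
        omega
  choose p hp using hpar
  obtain ⟨k, hk, P, h1, _, h3⟩ := part_aux G ρ p (fun v => G.dist v ρ) hp _ Finset.univ rfl
    (fun _ _ _ => Finset.mem_univ _)
  exact ⟨k, by simpa using hk, P, h1, fun v => h3 v (Finset.mem_univ v)⟩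

theorem upper_ratio {n : ℕ} (G : SimpleGraph (Fin n)) (hG : G.Connected)
    (hE : G.edgeSet.Nonempty) :
    (tau' G : ℝ) / ((tau G : ℝ) * (n : ℝ)) ≤ 1 / 4 + 1 / (n : ℝ) := by
  obtain ⟨x0⟩ := hG.nonempty
  have hn : (0 : ℝ) < n := by exact_mod_cast x0.pos
  have hpos : (0 : ℝ) ≤ 1 / (n : ℝ) := by positivity
  by_cases h0 : tau G = 0
  · rw [h0]; simp only [Nat.cast_zero, zero_mul, div_zero]; positivity
  by_cases h1 : tau G = 1
  · have hne : {k | TreeDec G k}.Nonempty := by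
      by_contra h
      rw [Set.not_nonempty_iff_eq_empty] at h
      exact h0 (by simp [tau, h])
    have hmem : TreeDec G (tau G) := Nat.sInf_mem hne
    rw [h1] at hmem
    obtain ⟨T, hT, hcov⟩ := hmem
    have hadj : ∀ a b, G.Adj a b → (T 0).Adj a b := by
      intro a b hab
      obtain ⟨i, hi, _⟩ := hcov s(a, b) hab
      rw [Subsingleton.elim i 0] at hi
      exact hi
    have hnt : Nontrivial (Fin n) := by
      obtain ⟨e, he⟩ := hE
      induction e using Sym2.ind with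
      | _ a b => exact ⟨a, b, (G.mem_edgeSet.1 he).ne⟩
    have htop : T 0 = ⊤ := by
      ext a b
      · have : a ∈ G.support := by rw [hG.preconnected.support_eq_univ]; trivial
        obtain ⟨b, hb⟩ := this
        exact ⟨fun _ => trivial, fun _ => (hadj a b hb).fst_mem⟩
      · exact ⟨fun h => (T 0).adj_sub h, hadj a b⟩
    have htree : (G.induce Set.univ).IsTree := by
      have := hT 0
      rw [htop] at this
      exact this
    have hp : TreePart G 1 := ⟨fun _ => Set.univ, fun _ => htree,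
      fun v => ⟨0, trivial, fun i _ => Subsingleton.elim i 0⟩⟩
    have hle : tau' G ≤ 1 := Nat.sInf_le hp
    have hle' : (tau' G : ℝ) ≤ 1 := by exact_mod_cast hle
    rw [h1]
    simp only [Nat.cast_one, one_mul]
    have : (tau' G : ℝ) / n ≤ 1 / n := by gcongr
    linarith
  · have h2 : (2 : ℝ) ≤ tau G := by exact_mod_cast (by omega : 2 ≤ tau G)
    obtain ⟨k, hk, hp⟩ := exists_part G hG
    have hle : tau' G ≤ k := Nat.sInf_le hp
    have hle' : 2 * (tau' G : ℝ) ≤ n + 1 := by exact_mod_cast (by omega : 2 * tau' G ≤ n + 1)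
    have hden : (0 : ℝ) < (tau G : ℝ) * n := by positivity
    rw [div_le_iff₀ hden]
    have e : (1 / 4 + 1 / (n : ℝ)) * ((tau G : ℝ) * n) = (tau G : ℝ) * (n / 4 + 1) := by
      field_simp
    rw [e]
    nlinarith

def wind (k : ℕ) : SimpleGraph (Fin (2 * k + 1)) where
  Adj a b := a.1 ≠ b.1 ∧ (a.1 = 0 ∨ b.1 = 0 ∨ (a.1 + 1) / 2 = (b.1 + 1) / 2)
  symm := ⟨fun a b h => by omega⟩
  loopless := ⟨fun a h => h.1 rfl⟩

theorem wind_conn (k : ℕ) : (wind k).Connected := by
  have h : ∀ a, (wind k).Reachable a 0 := by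
    intro a
    by_cases ha : a = 0
    · rw [ha]
    · refine Adj.reachable ⟨fun h => ha (Fin.ext h), Or.inr (Or.inl rfl)⟩
  exact ⟨fun a b => (h a).trans (h b).symm⟩

def sub1 (k : ℕ) : (wind k).Subgraph where
  verts := {a | a.1 % 2 = 0}
  Adj a b := a.1 ≠ b.1 ∧ a.1 % 2 = 0 ∧ b.1 % 2 = 0 ∧ (a.1 = 0 ∨ b.1 = 0)
  adj_sub := fun {a b} h => ⟨h.1, by omega⟩
  edge_vert := fun {a b} h => h.2.1
  symm := ⟨fun a b h => by omega⟩

def sub2 (k : ℕ) : (wind k).Subgraph where
  verts := Set.univ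
  Adj a b := (a.1 % 2 = 1 ∧ (b.1 = 0 ∨ b.1 = a.1 + 1)) ∨ (b.1 % 2 = 1 ∧ (a.1 = 0 ∨ a.1 = b.1 + 1))
  adj_sub := fun {a b} h => ⟨by omega, by omega⟩
  edge_vert := fun {a b} _ => trivial
  symm := ⟨fun a b h => by omega⟩

theorem sub1_tree (k : ℕ) : (sub1 k).coe.IsTree := by
  refine isTree_of_rank _ (fun x => x.1.1) ⟨0, (rfl : (0 : ℕ) % 2 = 0)⟩ ?_ ?_
  · intro v hv
    have hv' : v.1.1 ≠ 0 := fun h => hv (Subtype.ext (Fin.ext h))
    have he : v.1.1 % 2 = 0 := v.2
    exact ⟨⟨0, (rfl : (0 : ℕ) % 2 = 0)⟩, ⟨hv', he, rfl, Or.inr rfl⟩, Nat.pos_of_ne_zero hv'⟩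
  · intro v a b ha hb hra hrb
    obtain ⟨a1, a2, a3, a4⟩ := ha
    obtain ⟨b1, b2, b3, b4⟩ := hb
    exact Subtype.ext (Fin.ext (by omega))

theorem sub2_tree (k : ℕ) : (sub2 k).coe.IsTree := by
  refine isTree_of_rank _ (fun x => x.1.1) ⟨0, trivial⟩ ?_ ?_
  · intro v hv
    have hv' : v.1.1 ≠ 0 := fun h => hv (Subtype.ext (Fin.ext h))
    by_cases ho : v.1.1 % 2 = 1
    · exact ⟨⟨0, trivial⟩, Or.inl ⟨ho, Or.inl rfl⟩, Nat.pos_of_ne_zero hv'⟩
    · have hlt := v.1.2
      refine ⟨⟨⟨v.1.1 - 1, by omega⟩, trivial⟩, Or.inr ⟨?_, Or.inr ?_⟩, ?_⟩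
      · show (v.1.1 - 1) % 2 = 1
        omega
      · show v.1.1 = v.1.1 - 1 + 1
        omega
      · show v.1.1 - 1 < v.1.1
        omega
  · intro v a b ha hb hra hrb
    have ha' : (v.1.1 % 2 = 1 ∧ (a.1.1 = 0 ∨ a.1.1 = v.1.1 + 1)) ∨
      (a.1.1 % 2 = 1 ∧ (v.1.1 = 0 ∨ v.1.1 = a.1.1 + 1)) := ha
    have hb' : (v.1.1 % 2 = 1 ∧ (b.1.1 = 0 ∨ b.1.1 = v.1.1 + 1)) ∨
      (b.1.1 % 2 = 1 ∧ (v.1.1 = 0 ∨ v.1.1 = b.1.1 + 1)) := hb
    exact Subtype.ext (Fin.ext (by omega))

theorem wind_dec (k : ℕ) : TreeDec (wind k) 2 := by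
  refine ⟨![sub1 k, sub2 k], ?_, ?_⟩
  · intro i
    fin_cases i
    · exact sub1_tree k
    · exact sub2_tree k
  · intro e he
    induction e using Sym2.ind with
    | _ a b =>
      have hab : a.1 ≠ b.1 ∧ (a.1 = 0 ∨ b.1 = 0 ∨ (a.1 + 1) / 2 = (b.1 + 1) / 2) := he
      have e1 : s(a, b) ∈ (sub1 k).edgeSet ↔
        (a.1 ≠ b.1 ∧ a.1 % 2 = 0 ∧ b.1 % 2 = 0 ∧ (a.1 = 0 ∨ b.1 = 0)) := Iff.rfl
      have e2 : s(a, b) ∈ (sub2 k).edgeSet ↔
        ((a.1 % 2 = 1 ∧ (b.1 = 0 ∨ b.1 = a.1 + 1)) ∨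
          (b.1 % 2 = 1 ∧ (a.1 = 0 ∨ a.1 = b.1 + 1))) := Iff.rfl
      by_cases h : s(a, b) ∈ (sub1 k).edgeSet
      · refine ⟨0, h, ?_⟩
        intro i hi
        fin_cases i
        · rfl
        · have h2 := e2.1 hi
          have h1 := e1.1 h
          omega
      · refine ⟨1, e2.2 (by rw [e1] at h; omega), ?_⟩
        intro i hi
        fin_cases i
        · exact absurd hi h
        · rfl

theorem wind_part (k m : ℕ) (h : TreePart (wind k) m) : k + 1 ≤ m := by
  classical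
  obtain ⟨P, hT, hU⟩ := h
  obtain ⟨i0, hi0, hu0⟩ := hU 0
  have hx : ∀ j : Fin k, ∃ x : Fin (2 * k + 1), (x.1 + 1) / 2 = j.1 + 1 ∧ x ∉ P i0 := by
    intro j
    have hj := j.2
    by_contra hcon
    push Not at hcon
    have m1 := hcon ⟨2 * j.1 + 1, by omega⟩ (by show (2 * j.1 + 1 + 1) / 2 = j.1 + 1; omega)
    have m2 := hcon ⟨2 * j.1 + 2, by omega⟩ (by show (2 * j.1 + 2 + 1) / 2 = j.1 + 1; omega)
    have hcf := (hT i0).isAcyclic.cliqueFree (le_refl 3)
    refine hcf {⟨0, hi0⟩, ⟨_, m1⟩, ⟨_, m2⟩} (is3Clique_triple_iff.2 ⟨?_, ?_, ?_⟩)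
    · exact ⟨by show (0 : ℕ) ≠ 2 * j.1 + 1; omega, Or.inl rfl⟩
    · exact ⟨by show (0 : ℕ) ≠ 2 * j.1 + 2; omega, Or.inl rfl⟩
    · exact ⟨by show 2 * j.1 + 1 ≠ 2 * j.1 + 2; omega, Or.inr (Or.inr
        (by show (2 * j.1 + 1 + 1) / 2 = (2 * j.1 + 2 + 1) / 2; omega))⟩
  choose x hx1 hx2 using hx
  have hf : ∀ j, ∃ i, x j ∈ P i := fun j => (hU (x j)).exists
  choose f hf using hf
  have hfne : ∀ j, f j ≠ i0 := fun j h => hx2 j (h ▸ hf j)
  have hwalk : ∀ i, i ≠ i0 → ∀ (a b : P i) (w : ((wind k).induce (P i)).Walk a b),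
      (a.1.1 + 1) / 2 = (b.1.1 + 1) / 2 := by
    intro i hi a b w
    have hz : ∀ c : P i, c.1.1 ≠ 0 := by
      intro c hc
      have : c.1 = 0 := Fin.ext hc
      exact hi (hu0 i (this ▸ c.2))
    induction w with
    | nil => rfl
    | cons h q ih =>
      rename_i u v _
      have h' : u.1.1 ≠ v.1.1 ∧ (u.1.1 = 0 ∨ v.1.1 = 0 ∨ (u.1.1 + 1) / 2 = (v.1.1 + 1) / 2) := h
      have z1 := hz u
      have z2 := hz v
      omega
  have hinj : Function.Injective f := by
    intro j j' hjj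
    obtain ⟨w⟩ := (hT (f j)).connected.preconnected ⟨x j, hf j⟩ ⟨x j', hjj ▸ hf j'⟩
    have := hwalk (f j) (hfne j) _ _ w
    simp only [hx1] at this
    exact Fin.ext (by omega)
  have hinj2 : Function.Injective (fun o : Option (Fin k) => o.elim i0 f) := by
    intro a b hab
    cases a with
    | none =>
      cases b with
      | none => rfl
      | some b => exact absurd hab.symm (hfne b)
    | some a =>
      cases b with
      | none => exact absurd hab (hfne a)
      | some b => exact congrArg some (hinj hab)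
  simpa using Fintype.card_le_of_injective _ hinj2

theorem maxRatio_le (n : ℕ) : maxRatio n ≤ 1 / 4 + 1 / (n : ℝ) := by
  refine Real.sSup_le ?_ (by positivity)
  rintro x ⟨G, hG, hE, rfl⟩
  exact upper_ratio G hG hE

theorem maxRatio_nonneg (n : ℕ) : 0 ≤ maxRatio n := by
  refine Real.sSup_nonneg ?_
  rintro x ⟨G, hG, hE, rfl⟩
  positivity

theorem maxRatio_ge (k : ℕ) (hk : 1 ≤ k) : 1 / 4 ≤ maxRatio (2 * k + 1) := by
  have hE : s((0 : Fin (2 * k + 1)), (⟨1, by omega⟩ : Fin (2 * k + 1))) ∈ (wind k).edgeSet :=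
    ⟨by show (0 : ℕ) ≠ 1; omega, Or.inl rfl⟩
  have hb : BddAbove {x : ℝ | ∃ G : SimpleGraph (Fin (2 * k + 1)), G.Connected ∧
      G.edgeSet.Nonempty ∧ x = (tau' G : ℝ) / ((tau G : ℝ) * ((2 * k + 1 : ℕ) : ℝ))} := by
    refine ⟨1 / 4 + 1 / ((2 * k + 1 : ℕ) : ℝ), ?_⟩
    rintro x ⟨G, hG, hE, rfl⟩
    exact upper_ratio G hG hE
  refine le_trans ?_ (le_csSup hb ⟨wind k, wind_conn k, ⟨_, hE⟩, rfl⟩)
  have t2 : tau (wind k) ≤ 2 := Nat.sInf_le (wind_dec k)
  have t1 : 1 ≤ tau (wind k) := by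
    have hmem : TreeDec (wind k) (tau (wind k)) := 
      Nat.sInf_mem (s := {k' | TreeDec (wind k) k'}) ⟨2, wind_dec k⟩
    obtain ⟨T, _, hc⟩ := hmem
    obtain ⟨i, _, _⟩ := hc _ hE
    exact i.pos
  have t3 : k + 1 ≤ tau' (wind k) := by
    obtain ⟨m, _, hm⟩ := exists_part (wind k) (wind_conn k)
    exact wind_part k _ (Nat.sInf_mem (s := {k' | TreePart (wind k) k'}) ⟨m, hm⟩)
  have t1' : (1 : ℝ) ≤ tau (wind k) := by exact_mod_cast t1
  have t2' : (tau (wind k) : ℝ) ≤ 2 := by exact_mod_cast t2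
  have t3' : (k : ℝ) + 1 ≤ tau' (wind k) := by exact_mod_cast t3
  have hk0 : (0 : ℝ) ≤ k := Nat.cast_nonneg k
  rw [le_div_iff₀ (by positivity)]
  push_cast
  nlinarith

theorem result : Filter.limsup maxRatio Filter.atTop = 1 / 4 := by
  have hu : Tendsto (fun n : ℕ => (1 / 4 : ℝ) + 1 / (n : ℝ)) atTop (nhds (1 / 4)) := by
    simpa using (tendsto_const_nhds (x := (1 / 4 : ℝ))).add
      (tendsto_one_div_atTop_nhds_zero_nat (𝕜 := ℝ))
  have hbu := hu.isBoundedUnder_le
  have hbd : IsBoundedUnder (· ≤ ·) atTop maxRatio :=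
    hbu.mono_le (Eventually.of_forall maxRatio_le)
  apply le_antisymm
  · rw [← hu.limsup_eq]
    exact limsup_le_limsup (Eventually.of_forall maxRatio_le)
      (isCoboundedUnder_le_of_le atTop maxRatio_nonneg) hbu
  · refine le_limsup_of_frequently_le ?_ hbd
    refine frequently_atTop.2 fun N => ⟨2 * (N + 1) + 1, by omega, maxRatio_ge _ (by omega)⟩

end Pool.Agent.Results.MP_8bd6c4_co.SecondConstant
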